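import Mathlib
import Pool.Agent.H825R2.EW.PackM

set_option autoImplicit false

/-! Packing spanning trees (Tutte, Nash-Williams), from the base packing theorem. -/

namespace Pool.Agent.Q213.EV

open Finset
open Pool.Agent.Helper879.ECD (sp Ind sp_mono mem_sp)

/-- the pair `e` meets two classes of the partition into the fibres of `c` -/
def Cross {V : Type*} (c : V → V) (e : Sym2 V) : Prop := ∃ x ∈ e, ∃ y ∈ e, c x ≠ c y

theorem cross_mk {V : Type*} (c : V → V) (u v : V) : Cross c s(u, v) ↔ c u ≠ c v := by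
  unfold Cross
  constructor
  · rintro ⟨x, hx, y, hy, h⟩
    rw [Sym2.mem_iff] at hx hy
    rcases hx with rfl | rfl <;> rcases hy with rfl | rfl
    · exact absurd rfl h
    · exact h
    · exact h.symm
    · exact absurd rfl h
  · intro h
    exact ⟨u, Sym2.mem_mk_left u v, v, Sym2.mem_mk_right u v, h⟩

variable {V : Type} [Fintype V] [DecidableEq V]

/-- the vector of a pair -/
def vec : Sym2 V → (V → ZMod 2) :=
  Sym2.lift ⟨fun u v => Pi.single u 1 + Pi.single v 1, fun _ _ => add_comm _ _⟩

theorem vec_mk (u v : V) : vec s(u, v) = Pi.single u 1 + Pi.single v 1 := rfl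

theorem dbl (f : V → ZMod 2) : f + f = 0 := by
  funext x
  exact CharTwo.add_self_eq_zero (f x)

/-- the graph of a set of edges of `G` -/
def gr {G : SimpleGraph V} (R : Finset G.edgeSet) : SimpleGraph V :=
  SimpleGraph.fromEdgeSet (Subtype.val '' (R : Set G.edgeSet))

theorem gr_adj {G : SimpleGraph V} (R : Finset G.edgeSet) (u v : V) :
    (gr R).Adj u v ↔ ∃ h : s(u, v) ∈ G.edgeSet, (⟨s(u, v), h⟩ : G.edgeSet) ∈ R := by
  unfold gr
  rw [SimpleGraph.fromEdgeSet_adj]
  constructor
  · rintro ⟨⟨e, he, h⟩, -⟩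
    refine ⟨h ▸ e.2, ?_⟩
    have : (⟨s(u, v), h ▸ e.2⟩ : G.edgeSet) = e := Subtype.ext h.symm
    rw [this]
    exact he
  · rintro ⟨h, h'⟩
    exact ⟨⟨_, h', rfl⟩, G.ne_of_adj h⟩

theorem gr_le {G : SimpleGraph V} (R : Finset G.edgeSet) : gr R ≤ G := by
  intro u v h
  obtain ⟨h1, -⟩ := (gr_adj R u v).1 h
  exact h1

theorem path_mem {G : SimpleGraph V} (R : Finset G.edgeSet) {u v : V}
    (h : (gr R).Reachable u v) :
    (Pi.single u 1 + Pi.single v 1 : V → ZMod 2) ∈ sp (ZMod 2) (fun e : G.edgeSet => vec e.1) R := by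
  obtain ⟨p⟩ := h
  induction p with
  | nil => rw [dbl]; exact Submodule.zero_mem _
  | @cons u v w h p ih =>
    obtain ⟨h1, h2⟩ := (gr_adj R u v).1 h
    have h3 : vec s(u, v) ∈ sp (ZMod 2) (fun e : G.edgeSet => vec e.1) R := mem_sp h2
    have h4 := Submodule.add_mem _ h3 ih
    have e1 : (vec s(u, v) + (Pi.single v 1 + Pi.single w 1) : V → ZMod 2) =
        Pi.single u 1 + Pi.single w 1 := by
      rw [vec_mk]
      have := dbl (Pi.single v 1 : V → ZMod 2)
      calc (Pi.single u 1 + Pi.single v 1 + (Pi.single v 1 + Pi.single w 1) : V → ZMod 2)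
          = Pi.single u 1 + (Pi.single v 1 + Pi.single v 1) + Pi.single w 1 := by abel
        _ = _ := by rw [this, add_zero]
    rw [e1] at h4
    exact h4

/-- a representative of the component -/
noncomputable def rp (H : SimpleGraph V) (v : V) : V := Quot.out (H.connectedComponentMk v)

theorem rp_reach (H : SimpleGraph V) (v : V) : H.Reachable v (rp H v) := by
  have h : H.connectedComponentMk (rp H v) = H.connectedComponentMk v :=
    Quot.out_eq (H.connectedComponentMk v)
  exact SimpleGraph.ConnectedComponent.exact h.symm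

theorem rp_eq {H : SimpleGraph V} {u v : V} (h : H.Reachable u v) : rp H u = rp H v := by
  unfold rp
  rw [SimpleGraph.ConnectedComponent.sound h]

theorem rank_le {G : SimpleGraph V} (R : Finset G.edgeSet) (z : V) [Fintype G.edgeSet] :
    Module.finrank (ZMod 2) (sp (ZMod 2) (fun e : G.edgeSet => vec e.1) univ) ≤
      Module.finrank (ZMod 2) (sp (ZMod 2) (fun e : G.edgeSet => vec e.1) R) +
        ((univ.image (rp (gr R))).card - 1) := by
  classical
  set A := sp (ZMod 2) (fun e : G.edgeSet => vec e.1) R with hA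
  set c := rp (gr R) with hc
  obtain ⟨S, hS⟩ : ∃ S : Finset (V → ZMod 2), S = ((univ.image c).erase (c z)).image
    (fun r => (Pi.single r 1 + Pi.single (c z) 1 : V → ZMod 2)) := ⟨_, rfl⟩
  have hcz : ∀ v, (Pi.single (c v) 1 + Pi.single (c z) 1 : V → ZMod 2) ∈
      A ⊔ Submodule.span (ZMod 2) (S : Set (V → ZMod 2)) := by
    intro v
    by_cases h : c v = c z
    · rw [h, dbl]
      exact Submodule.zero_mem _
    · apply Submodule.mem_sup_right
      apply Submodule.subset_span
      rw [hS]
      rw [Finset.mem_coe, Finset.mem_image]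
      exact ⟨c v, Finset.mem_erase.2 ⟨h, Finset.mem_image_of_mem _ (Finset.mem_univ _)⟩, rfl⟩
  have hv : ∀ v, (Pi.single v 1 + Pi.single (c v) 1 : V → ZMod 2) ∈
      A ⊔ Submodule.span (ZMod 2) (S : Set (V → ZMod 2)) := fun v =>
    Submodule.mem_sup_left (path_mem R (rp_reach (gr R) v))
  have hle : sp (ZMod 2) (fun e : G.edgeSet => vec e.1) univ ≤
      A ⊔ Submodule.span (ZMod 2) (S : Set (V → ZMod 2)) := by
    unfold sp
    rw [Submodule.span_le]
    rintro _ ⟨⟨e, he⟩, -, rfl⟩
    induction e using Sym2.ind with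
    | _ u v =>
      have h1 := Submodule.add_mem _ (Submodule.add_mem _ (hv u) (hcz u))
        (Submodule.add_mem _ (hv v) (hcz v))
      have e1 : (Pi.single u 1 + Pi.single (c u) 1 + (Pi.single (c u) 1 + Pi.single (c z) 1) +
          (Pi.single v 1 + Pi.single (c v) 1 + (Pi.single (c v) 1 + Pi.single (c z) 1)) :
          V → ZMod 2) = vec s(u, v) := by
        rw [vec_mk]
        have d1 := dbl (Pi.single (c u) 1 : V → ZMod 2)
        have d2 := dbl (Pi.single (c v) 1 : V → ZMod 2)
        have d3 := dbl (Pi.single (c z) 1 : V → ZMod 2)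
        calc (Pi.single u 1 + Pi.single (c u) 1 + (Pi.single (c u) 1 + Pi.single (c z) 1) +
          (Pi.single v 1 + Pi.single (c v) 1 + (Pi.single (c v) 1 + Pi.single (c z) 1)) :
          V → ZMod 2) = Pi.single u 1 + Pi.single v 1 + (Pi.single (c u) 1 + Pi.single (c u) 1) +
            (Pi.single (c v) 1 + Pi.single (c v) 1) + (Pi.single (c z) 1 + Pi.single (c z) 1) := by
              abel
          _ = _ := by rw [d1, d2, d3, add_zero, add_zero, add_zero]
      rw [e1] at h1
      exact h1
  have h1 := Submodule.finrank_mono hle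
  have h2 := Submodule.finrank_add_le_finrank_add_finrank A
    (Submodule.span (ZMod 2) (S : Set (V → ZMod 2)))
  have h3 : Module.finrank (ZMod 2) (Submodule.span (ZMod 2) (S : Set (V → ZMod 2))) ≤ S.card :=
    finrank_span_finset_le_card S
  have h4 : S.card ≤ (univ.image c).card - 1 := by
    rw [hS]
    refine Finset.card_image_le.trans ?_
    rw [Finset.card_erase_of_mem (Finset.mem_image_of_mem _ (Finset.mem_univ _))]
  omega

/-- a spanning set of edges is connected, if every partition is crossed -/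
theorem conn {G : SimpleGraph V} [Fintype G.edgeSet] (z : V) (I : Finset G.edgeSet)
    (hI : sp (ZMod 2) (fun e : G.edgeSet => vec e.1) I =
      sp (ZMod 2) (fun e : G.edgeSet => vec e.1) univ)
    (h : ∀ c : V → V, 2 ≤ (univ.image c).card → ∃ e ∈ G.edgeSet, Cross c e) :
    (gr I).Connected := by
  classical
  haveI : Nonempty V := ⟨z⟩
  rw [SimpleGraph.connected_iff]
  refine ⟨?_, ⟨z⟩⟩
  intro u v
  by_contra huv
  have huv' : u ≠ v := by
    rintro rfl
    exact huv (SimpleGraph.Reachable.refl u)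
  obtain ⟨e, he, hcr⟩ := h (fun w => if (gr I).Reachable u w then u else v) (by
    have h1 : ({u, v} : Finset V) ⊆ univ.image
        (fun w => if (gr I).Reachable u w then u else v) := by
      intro x hx
      rw [Finset.mem_insert, Finset.mem_singleton] at hx
      rw [Finset.mem_image]
      rcases hx with rfl | rfl
      · exact ⟨x, Finset.mem_univ _, by rw [if_pos (SimpleGraph.Reachable.refl x)]⟩
      · exact ⟨x, Finset.mem_univ _, by rw [if_neg huv]⟩
    have h2 := Finset.card_le_card h1
    rwa [Finset.card_pair huv'] at h2)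
  let φ : (V → ZMod 2) →ₗ[ZMod 2] ZMod 2 :=
    ∑ w ∈ univ.filter (fun w => (gr I).Reachable u w), LinearMap.proj w
  have hφ : ∀ f, φ f = ∑ w ∈ univ.filter (fun w => (gr I).Reachable u w), f w := by
    intro f
    simp only [φ, LinearMap.sum_apply, LinearMap.proj_apply]
  have hφ1 : ∀ x : V, φ (Pi.single x 1) = if (gr I).Reachable u x then 1 else 0 := by
    intro x
    rw [hφ]
    by_cases hx : (gr I).Reachable u x
    · rw [if_pos hx, Finset.sum_eq_single x]
      · rw [Pi.single_eq_same]
      · intro y _ hy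
        rw [Pi.single_eq_of_ne hy]
      · intro hx'
        exact absurd (Finset.mem_filter.2 ⟨Finset.mem_univ _, hx⟩) hx'
    · rw [if_neg hx]
      apply Finset.sum_eq_zero
      intro y hy
      rw [Finset.mem_filter] at hy
      rw [Pi.single_eq_of_ne]
      rintro rfl
      exact hx hy.2
  have hker : sp (ZMod 2) (fun e : G.edgeSet => vec e.1) I ≤ LinearMap.ker φ := by
    unfold sp
    rw [Submodule.span_le]
    rintro _ ⟨⟨e, he⟩, heI, rfl⟩
    induction e using Sym2.ind with
    | _ x y =>
      have hadj : (gr I).Adj x y := (gr_adj I x y).2 ⟨he, heI⟩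
      have hxy : (gr I).Reachable u x ↔ (gr I).Reachable u y :=
        ⟨fun h => h.trans hadj.reachable, fun h => h.trans hadj.reachable.symm⟩
      rw [SetLike.mem_coe, LinearMap.mem_ker]
      change φ (vec s(x, y)) = 0
      rw [vec_mk, map_add, hφ1, hφ1]
      by_cases hx : (gr I).Reachable u x
      · rw [if_pos hx, if_pos (hxy.1 hx)]
        decide
      · rw [if_neg hx, if_neg (fun h => hx (hxy.2 h)), add_zero]
  induction e using Sym2.ind with
  | _ x y =>
    rw [cross_mk] at hcr
    have h1 : vec s(x, y) ∈ sp (ZMod 2) (fun e : G.edgeSet => vec e.1) I := by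
      rw [hI]
      exact mem_sp (e := (⟨s(x, y), he⟩ : G.edgeSet)) (Finset.mem_univ _)
    have h2 := hker h1
    rw [LinearMap.mem_ker, vec_mk, map_add, hφ1, hφ1] at h2
    by_cases hx : (gr I).Reachable u x <;> by_cases hy : (gr I).Reachable u y
    · rw [if_pos hx, if_pos hy] at hcr
      exact hcr rfl
    · rw [if_pos hx, if_neg hy] at h2
      exact absurd h2 (by decide)
    · rw [if_neg hx, if_pos hy] at h2
      exact absurd h2 (by decide)
    · rw [if_neg hx, if_neg hy] at hcr
      exact hcr rfl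

/-- **Tutte, Nash-Williams.** -/
theorem tnw (G : SimpleGraph V) (k : ℕ) (hk : 1 ≤ k) (z : V)
    (h : ∀ c : V → V, k * ((univ.image c).card - 1) ≤
      {e | e ∈ G.edgeSet ∧ Cross c e}.ncard) :
    ∃ T : Fin k → SimpleGraph V, (∀ i, T i ≤ G ∧ (T i).IsTree) ∧
      ∀ i j, i ≠ j → ∀ u v, (T i).Adj u v → ¬ (T j).Adj u v := by
  classical
  haveI : Fintype G.edgeSet := Fintype.ofFinite _
  obtain ⟨I, hI1, hI2⟩ := Pool.Agent.H825R2.EW.packM (F := ZMod 2) (K := Fin k)
    (x := fun (_ : Fin k) (e : G.edgeSet) => vec e.1) (by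
      intro R
      rw [Finset.sum_const, Finset.sum_const, Finset.card_univ, Fintype.card_fin, smul_eq_mul,
        smul_eq_mul]
      have h1 := rank_le R z
      have h2 := h (rp (gr R))
      have h3 : {e | e ∈ G.edgeSet ∧ Cross (rp (gr R)) e}.ncard ≤ (univ \ R).card := by
        rw [← Finset.card_image_of_injective (univ \ R) (Subtype.val_injective),
          ← Set.ncard_coe_finset]
        refine Set.ncard_le_ncard ?_ (Finset.finite_toSet _)
        rintro e ⟨he, hc⟩
        rw [Finset.mem_coe, Finset.mem_image]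
        refine ⟨⟨e, he⟩, Finset.mem_sdiff.2 ⟨Finset.mem_univ _, fun hR => ?_⟩, rfl⟩
        induction e using Sym2.ind with
        | _ x y =>
          rw [cross_mk] at hc
          exact hc (rp_eq ((gr_adj R x y).2 ⟨he, hR⟩).reachable)
      have h4 := Nat.mul_le_mul_left k h1
      rw [Nat.mul_add] at h4
      omega)
  have hcr : ∀ c : V → V, 2 ≤ (univ.image c).card → ∃ e ∈ G.edgeSet, Cross c e := by
    intro c hc
    have h1 := h c
    have h2 : 1 * 1 ≤ k * ((univ.image c).card - 1) := Nat.mul_le_mul hk (by omega)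
    have h3 : 0 < {e | e ∈ G.edgeSet ∧ Cross c e}.ncard := by omega
    obtain ⟨e, he⟩ := (Set.ncard_pos (Set.toFinite _)).1 h3
    exact ⟨e, he.1, he.2⟩
  have hT : ∀ i, ∃ T ≤ gr (I i), T.IsTree := by
    intro i
    exact (conn z (I i) (hI2 i) hcr).exists_isTree_le
  choose T hT1 hT2 using hT
  refine ⟨T, fun i => ⟨(hT1 i).trans (gr_le _), hT2 i⟩, ?_⟩
  intro i j hij u v h1 h2
  obtain ⟨a1, a2⟩ := (gr_adj (I i) u v).1 (hT1 i h1)
  obtain ⟨b1, b2⟩ := (gr_adj (I j) u v).1 (hT1 j h2)
  exact Finset.disjoint_left.1 (hI1 i j hij) a2 b2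

end Pool.Agent.Q213.EV
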