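import Mathlib
import Pool.Agent.Q213.EV.Pack
import Pool.Agent.Results.MP_257582_lc.ConeDegrees

set_option autoImplicit false

/-! Cuts and partitions of cones over regular graphs. -/

namespace Pool.Agent.Q213.EV

open Finset
open Pool.Agent.Results.MP_257582_lc.ConeDegrees

/-- `k` pairwise edge-disjoint spanning trees -/
def Packs {V : Type} (k : ℕ) (G : SimpleGraph V) : Prop :=
  ∃ T : Fin k → SimpleGraph V, (∀ i, T i ≤ G ∧ (T i).IsTree) ∧
    ∀ i j, i ≠ j → ∀ u v, (T i).Adj u v → ¬ (T j).Adj u v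

section General

variable {V : Type} [Fintype V] [DecidableEq V]

/-- the edges between different classes -/
def crossG (G : SimpleGraph V) (c : V → V) : SimpleGraph V where
  Adj u v := G.Adj u v ∧ c u ≠ c v
  symm := ⟨fun _ _ h => ⟨h.1.symm, h.2.symm⟩⟩
  loopless := ⟨fun _ h => h.2 rfl⟩

omit [Fintype V] [DecidableEq V] in
theorem crossG_edges (G : SimpleGraph V) (c : V → V) :
    (crossG G c).edgeSet = {e | e ∈ G.edgeSet ∧ Cross c e} := by
  ext e
  induction e using Sym2.ind with
  | _ x y =>
    rw [SimpleGraph.mem_edgeSet, Set.mem_setOf_eq, SimpleGraph.mem_edgeSet, cross_mk]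
    exact Iff.rfl

open Classical in
/-- twice the number of crossing edges -/
theorem two_cross (G : SimpleGraph V) (c : V → V) :
    2 * {e | e ∈ G.edgeSet ∧ Cross c e}.ncard =
      ∑ u, (univ.filter (fun v => G.Adj u v ∧ c u ≠ c v)).card := by
  have h1 := (crossG G c).sum_degrees_eq_twice_card_edges
  have h2 : {e | e ∈ G.edgeSet ∧ Cross c e}.ncard = (crossG G c).edgeFinset.card := by
    rw [← crossG_edges, ← SimpleGraph.coe_edgeFinset, Set.ncard_coe_finset]
  rw [h2, ← h1]
  refine Finset.sum_congr rfl fun u _ => ?_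
  rw [← SimpleGraph.card_neighborFinset_eq_degree]
  congr 1
  ext v
  rw [SimpleGraph.mem_neighborFinset, Finset.mem_filter]
  exact ⟨fun h => ⟨Finset.mem_univ _, h⟩, fun h => h.2⟩

open Classical in
/-- pairs leaving `B` -/
noncomputable def cut (G : SimpleGraph V) (B : Finset V) : ℕ :=
  ∑ u ∈ B, (univ.filter (fun v => G.Adj u v ∧ v ∉ B)).card

open Classical in
theorem cut_compl (G : SimpleGraph V) (B : Finset V) : cut G Bᶜ = cut G B := by
  unfold cut
  have h : ∀ C : Finset V, ∑ u ∈ C, (univ.filter (fun v => G.Adj u v ∧ v ∉ C)).card =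
      ∑ u ∈ C, ∑ v ∈ Cᶜ, if G.Adj u v then 1 else 0 := by
    intro C
    refine Finset.sum_congr rfl fun u _ => ?_
    rw [← Finset.card_filter]
    congr 1
    ext v
    rw [Finset.mem_filter, Finset.mem_filter, Finset.mem_compl]
    exact ⟨fun h => ⟨h.2.2, h.2.1⟩, fun h => ⟨Finset.mem_univ _, h.2, h.1⟩⟩
  rw [h, h, compl_compl, Finset.sum_comm]
  refine Finset.sum_congr rfl fun u _ => Finset.sum_congr rfl fun v _ => ?_
  simp only [SimpleGraph.adj_comm]

open Classical in
/-- the sum over the classes -/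
theorem two_cross_cut (G : SimpleGraph V) (c : V → V) :
    2 * {e | e ∈ G.edgeSet ∧ Cross c e}.ncard =
      ∑ a ∈ univ.image c, cut G (univ.filter (fun u => c u = a)) := by
  rw [two_cross, ← Finset.sum_fiberwise_of_maps_to (g := c) (t := univ.image c)
    (fun u _ => Finset.mem_image_of_mem _ (Finset.mem_univ _))]
  refine Finset.sum_congr rfl fun a _ => ?_
  unfold cut
  refine Finset.sum_congr rfl fun u hu => ?_
  rw [Finset.mem_filter] at hu
  congr 1
  ext v
  rw [Finset.mem_filter, Finset.mem_filter, Finset.mem_filter, hu.2]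
  constructor
  · rintro ⟨-, h1, h2⟩
    exact ⟨Finset.mem_univ _, h1, fun h => h2 h.2.symm⟩
  · rintro ⟨-, h1, h2⟩
    exact ⟨Finset.mem_univ _, h1, fun h => h2 ⟨Finset.mem_univ _, h.symm⟩⟩

end General

section Cones

variable {n d : ℕ} {K : SimpleGraph (Fin n)}

open Classical in
theorem deg_cone (hK : RegularOfDegree K d) (x : Fin n) :
    (univ.filter (fun v => (Cone K).Adj x.castSucc v)).card = d + 1 := by
  rw [← cone_deg K hK x, ← Set.ncard_coe_finset]
  congr 1
  ext v
  rw [Finset.mem_coe, Finset.mem_filter]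
  exact ⟨fun h => h.2, fun h => ⟨Finset.mem_univ _, h⟩⟩

theorem adj_last (K : SimpleGraph (Fin n)) (x : Fin n) :
    (Cone K).Adj x.castSucc (Fin.last n) :=
  ⟨(Fin.castSucc_lt_last x).ne, fun _ b _ hb => absurd hb.symm (Fin.castSucc_lt_last b).ne⟩

theorem num1 (b d : ℕ) (hb : 1 ≤ b) : d + 1 ≤ b * max 1 (d + 2 - b) := by
  rcases Nat.lt_or_ge d b with h | h
  · calc d + 1 ≤ b * 1 := by omega
      _ ≤ _ := Nat.mul_le_mul_left _ (le_max_left _ _)
  · obtain ⟨e, rfl⟩ := Nat.exists_eq_add_of_le h
    obtain ⟨f, rfl⟩ := Nat.exists_eq_add_of_le hb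
    have h1 : 1 + f + e + 2 - (1 + f) = e + 2 := by omega
    rw [h1]
    have h2 : max 1 (e + 2) = e + 2 := by omega
    rw [h2]
    nlinarith [Nat.zero_le (f * e)]

open Classical in
theorem cut_ge (hK : RegularOfDegree K d) (B : Finset (Fin (n + 1))) (hB : B.Nonempty)
    (hz : Fin.last n ∉ B) : B.card ≤ cut (Cone K) B ∧ d + 1 ≤ cut (Cone K) B := by
  have h1 : ∀ u ∈ B, max 1 (d + 2 - B.card) ≤
      (univ.filter (fun v => (Cone K).Adj u v ∧ v ∉ B)).card := by
    intro u hu
    obtain ⟨x, rfl⟩ | hx := Fin.eq_castSucc_or_eq_last u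
    · apply max_le
      · rw [Nat.one_le_iff_ne_zero, ← Nat.pos_iff_ne_zero, Finset.card_pos]
        exact ⟨Fin.last n, Finset.mem_filter.2 ⟨Finset.mem_univ _, adj_last K x, hz⟩⟩
      · have h2 := deg_cone hK x
        have h3 : univ.filter (fun v => (Cone K).Adj x.castSucc v) ⊆
            univ.filter (fun v => (Cone K).Adj x.castSucc v ∧ v ∉ B) ∪ B.erase x.castSucc := by
          intro v hv
          rw [Finset.mem_filter] at hv
          rw [Finset.mem_union, Finset.mem_filter, Finset.mem_erase]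
          by_cases hvB : v ∈ B
          · exact Or.inr ⟨((Cone K).ne_of_adj hv.2).symm, hvB⟩
          · exact Or.inl ⟨Finset.mem_univ _, hv.2, hvB⟩
        have h4 := (Finset.card_le_card h3).trans (Finset.card_union_le _ _)
        rw [h2, Finset.card_erase_of_mem hu] at h4
        have h5 := Finset.card_pos.2 hB
        omega
    · exact absurd (hx ▸ hu) hz
  have h2 : B.card * max 1 (d + 2 - B.card) ≤ cut (Cone K) B := by
    unfold cut
    calc B.card * max 1 (d + 2 - B.card) = ∑ u ∈ B, max 1 (d + 2 - B.card) := by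
          rw [Finset.sum_const, smul_eq_mul]
      _ ≤ _ := Finset.sum_le_sum h1
  refine ⟨?_, (num1 _ _ (Finset.card_pos.2 hB)).trans h2⟩
  calc B.card = B.card * 1 := (Nat.mul_one _).symm
    _ ≤ B.card * max 1 (d + 2 - B.card) := Nat.mul_le_mul_left _ (le_max_left _ _)
    _ ≤ _ := h2

open Classical in
/-- the number of crossing edges of a partition of a cone into `m + 1` classes -/
theorem cross_ge (hK : RegularOfDegree K d) (c : Fin (n + 1) → Fin (n + 1)) (m : ℕ)
    (hm : m = (univ.image c).card - 1) :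
    m * (d + 2) ≤ 2 * {e | e ∈ (Cone K).edgeSet ∧ Cross c e}.ncard ∧
    (1 ≤ m → (m + 1) * (d + 1) ≤ 2 * {e | e ∈ (Cone K).edgeSet ∧ Cross c e}.ncard) := by
  have hcz : c (Fin.last n) ∈ univ.image c := Finset.mem_image_of_mem _ (Finset.mem_univ _)
  obtain ⟨S, hS⟩ : ∃ S : Finset (Fin (n + 1)), S = univ.filter (fun v => c v ≠ c (Fin.last n)) :=
    ⟨_, rfl⟩
  have hzS : Fin.last n ∉ S := by
    rw [hS, Finset.mem_filter]
    exact fun h => h.2 rfl
  have hSm : m ≤ S.card := by
    have h1 : (univ.image c).erase (c (Fin.last n)) ⊆ S.image c := by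
      intro a ha
      rw [Finset.mem_erase, Finset.mem_image] at ha
      obtain ⟨h1, v, -, rfl⟩ := ha
      refine Finset.mem_image_of_mem _ ?_
      rw [hS, Finset.mem_filter]
      exact ⟨Finset.mem_univ _, h1⟩
    have h2 := (Finset.card_le_card h1).trans Finset.card_image_le
    rw [Finset.card_erase_of_mem hcz] at h2
    omega
  have hsum : m * (d + 1) + cut (Cone K) S ≤
      2 * {e | e ∈ (Cone K).edgeSet ∧ Cross c e}.ncard := by
    rw [two_cross_cut, ← Finset.sum_erase_add _ _ hcz]
    apply Nat.add_le_add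
    · calc m * (d + 1) = ∑ a ∈ (univ.image c).erase (c (Fin.last n)), (d + 1) := by
            rw [Finset.sum_const, Finset.card_erase_of_mem hcz, smul_eq_mul, hm]
        _ ≤ _ := by
            refine Finset.sum_le_sum fun a ha => ?_
            rw [Finset.mem_erase, Finset.mem_image] at ha
            obtain ⟨h1, v, -, h2⟩ := ha
            refine (cut_ge hK _ ⟨v, Finset.mem_filter.2 ⟨Finset.mem_univ _, h2⟩⟩ ?_).2
            rw [Finset.mem_filter]
            exact fun h => h1 h.2.symm
    · have h1 : univ.filter (fun u => c u = c (Fin.last n)) = Sᶜ := by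
        ext v
        rw [hS, Finset.mem_compl, Finset.mem_filter, Finset.mem_filter]
        constructor
        · rintro ⟨-, h⟩ ⟨-, h'⟩
          exact h' h
        · intro h
          refine ⟨Finset.mem_univ _, ?_⟩
          by_contra h'
          exact h ⟨Finset.mem_univ _, h'⟩
      rw [h1, cut_compl]
  constructor
  · rcases Nat.eq_zero_or_pos m with h0 | h0
    · rw [h0]
      omega
    · have hne : S.Nonempty := Finset.card_pos.1 (by omega)
      have h1 := (cut_ge hK S hne hzS).1
      have h2 : m * (d + 2) = m * (d + 1) + m := by ring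
      omega
  · intro h0
    have hne : S.Nonempty := Finset.card_pos.1 (by omega)
    have h1 := (cut_ge hK S hne hzS).2
    have h2 : (m + 1) * (d + 1) = m * (d + 1) + (d + 1) := by ring
    omega

/-- the number of edges of a cone -/
theorem edges_cone (hK : RegularOfDegree K d) :
    2 * (Cone K).edgeSet.ncard = n * (d + 2) := by
  classical
  have h1 := two_cross (Cone K) id
  have h2 : {e | e ∈ (Cone K).edgeSet ∧ Cross id e} = (Cone K).edgeSet := by
    ext e
    induction e using Sym2.ind with
    | _ x y =>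
      rw [Set.mem_setOf_eq, cross_mk]
      exact ⟨fun h => h.1, fun h => ⟨h, (Cone K).ne_of_adj h⟩⟩
  rw [h2] at h1
  rw [h1, Fin.sum_univ_castSucc]
  have h3 : ∀ x : Fin n, (univ.filter (fun v => (Cone K).Adj x.castSucc v ∧
      id x.castSucc ≠ id v)).card = d + 1 := by
    intro x
    rw [← deg_cone hK x]
    congr 1
    ext v
    rw [Finset.mem_filter, Finset.mem_filter]
    exact ⟨fun h => ⟨h.1, h.2.1⟩, fun h => ⟨h.1, h.2, (Cone K).ne_of_adj h.2⟩⟩
  have h4 : (univ.filter (fun v => (Cone K).Adj (Fin.last n) v ∧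
      id (Fin.last n) ≠ id v)).card = n := by
    have : univ.filter (fun v => (Cone K).Adj (Fin.last n) v ∧ id (Fin.last n) ≠ id v) =
        univ.image (Fin.castSucc (n := n)) := by
      ext v
      rw [Finset.mem_filter, Finset.mem_image]
      constructor
      · rintro ⟨-, h, -⟩
        obtain ⟨x, rfl⟩ | rfl := Fin.eq_castSucc_or_eq_last v
        · exact ⟨x, Finset.mem_univ _, rfl⟩
        · exact absurd rfl ((Cone K).ne_of_adj h)
      · rintro ⟨x, -, rfl⟩
        exact ⟨Finset.mem_univ _, (adj_last K x).symm, (Fin.castSucc_lt_last x).ne'⟩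
    rw [this, Finset.card_image_of_injective _ (Fin.castSucc_injective n), Finset.card_univ,
      Fintype.card_fin]
  rw [Finset.sum_congr rfl (fun x _ => h3 x), h4, Finset.sum_const, Finset.card_univ,
    Fintype.card_fin, smul_eq_mul]
  ring

end Cones

end Pool.Agent.Q213.EV
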