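import Mathlib
import Pool.Agent.Q213.EV.Cone

set_option autoImplicit false

/-! Robust packings of spanning trees and the strength of cones over regular graphs. -/

namespace Pool.Agent.Q213.EV

open Finset
open Pool.Agent.Results.MP_257582_lc.ConeDegrees

/-- after the deletion of any at most `l` edges there are `k` edge-disjoint spanning trees -/
def Rob {V : Type} (k l : ℕ) (G : SimpleGraph V) : Prop :=
  ∀ F : Finset (Sym2 V), F.card ≤ l → Packs k (G.deleteEdges F)

/-- strength at least `t` -/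
def Strg {V : Type} [Fintype V] [DecidableEq V] (t : ℝ) (G : SimpleGraph V) : Prop :=
  ∀ c : V → V, t * (((univ.image c).card : ℝ) - 1) ≤
    ({e | e ∈ G.edgeSet ∧ Cross c e}.ncard : ℝ)

theorem packs_mono {V : Type} {k : ℕ} {G H : SimpleGraph V} (h : G ≤ H) (hG : Packs k G) :
    Packs k H := by
  obtain ⟨T, h1, h2⟩ := hG
  exact ⟨T, fun i => ⟨(h1 i).1.trans h, (h1 i).2⟩, h2⟩

theorem rob_mono {V : Type} {k l : ℕ} {G H : SimpleGraph V} (h : G ≤ H) (hG : Rob k l G) :
    Rob k l H := by
  intro F hF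
  refine packs_mono ?_ (hG F hF)
  intro u v huv
  rw [SimpleGraph.deleteEdges_adj] at huv ⊢
  exact ⟨h huv.1, huv.2⟩

section Iso

variable {V : Type} (σ : V ≃ V)

theorem isTree_map {T : SimpleGraph V} (h : T.IsTree) : (T.map σ.toEmbedding).IsTree :=
  (SimpleGraph.Iso.isTree_iff (SimpleGraph.Iso.map σ T)).1 h

theorem packs_map {k : ℕ} {G : SimpleGraph V} (hG : Packs k G) :
    Packs k (G.map σ.toEmbedding) := by
  obtain ⟨T, h1, h2⟩ := hG
  refine ⟨fun i => (T i).map σ.toEmbedding, fun i => ⟨SimpleGraph.map_monotone _ (h1 i).1,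
    isTree_map σ (h1 i).2⟩, ?_⟩
  intro i j hij u v hu hv
  change ((T i).map σ.toEmbedding).Adj u v at hu
  change ((T j).map σ.toEmbedding).Adj u v at hv
  rw [SimpleGraph.map_adj] at hu hv
  obtain ⟨a, b, hab, rfl, rfl⟩ := hu
  obtain ⟨a', b', hab', ha, hb⟩ := hv
  have e1 : a' = a := σ.injective ha
  have e2 : b' = b := σ.injective hb
  subst e1 e2
  exact h2 i j hij _ _ hab hab'

theorem rob_map {k l : ℕ} {G : SimpleGraph V} (hG : Rob k l G) :
    Rob k l (G.map σ.toEmbedding) := by
  classical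
  intro F hF
  have h1 := packs_map σ (hG (F.image (Sym2.map σ.symm)) (Finset.card_image_le.trans hF))
  refine packs_mono ?_ h1
  intro u v huv
  rw [SimpleGraph.map_adj] at huv
  obtain ⟨a, b, hab, rfl, rfl⟩ := huv
  rw [SimpleGraph.deleteEdges_adj] at hab ⊢
  refine ⟨(SimpleGraph.map_adj _ _ _ _).2 ⟨a, b, hab.1, rfl, rfl⟩, fun h => hab.2 ?_⟩
  rw [Finset.mem_coe, Finset.mem_image]
  refine ⟨_, h, ?_⟩
  rw [Sym2.map_mk]
  change s(σ.symm (σ a), σ.symm (σ b)) = s(a, b)
  rw [Equiv.symm_apply_apply, Equiv.symm_apply_apply]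

end Iso

theorem rob_isolated {V : Type} [Finite V] {k l : ℕ} (hk : 1 ≤ k) {G : SimpleGraph V}
    (v w : V) (hvw : v ≠ w) (hv : ∀ w, ¬ G.Adj v w) : ¬ Rob k l G := by
  intro h
  obtain ⟨T, h1, -⟩ := h ∅ (by simp)
  have h2 := (h1 ⟨0, hk⟩)
  have h3 := h2.2.1.preconnected v w
  obtain ⟨p⟩ := h3
  cases p with
  | nil => exact hvw rfl
  | cons hadj _ =>
    have := h2.1 hadj
    rw [SimpleGraph.deleteEdges_adj] at this
    exact hv _ this.1

section Cones

variable {n d : ℕ} {K : SimpleGraph (Fin n)}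

/-- sufficiency -/
theorem rob_cone_of (hK : RegularOfDegree K d) {k l : ℕ} (hk : 1 ≤ k) (h1 : k + l ≤ d + 1)
    (h2 : 2 * k ≤ d + 2) (h3 : l = 0 ∨ 2 * k ≤ d + 1) : Rob k l (Cone K) := by
  classical
  intro F hF
  refine tnw _ k hk (Fin.last n) ?_
  intro c
  obtain ⟨m, hm⟩ : ∃ m, m = (univ.image c).card - 1 := ⟨_, rfl⟩
  rw [← hm]
  obtain ⟨h4, h5⟩ := cross_ge hK c m hm
  set X := {e | e ∈ (Cone K).edgeSet ∧ Cross c e} with hX
  have h6 : X.ncard ≤ {e | e ∈ ((Cone K).deleteEdges F).edgeSet ∧ Cross c e}.ncard + l := by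
    have h7 : X ⊆ {e | e ∈ ((Cone K).deleteEdges F).edgeSet ∧ Cross c e} ∪ (F : Set _) := by
      rintro e ⟨he1, he2⟩
      by_cases he : e ∈ F
      · exact Or.inr he
      · left
        refine ⟨?_, he2⟩
        rw [SimpleGraph.edgeSet_deleteEdges]
        exact ⟨he1, he⟩
    calc X.ncard ≤ _ := Set.ncard_le_ncard h7 (Set.toFinite _)
      _ ≤ _ := Set.ncard_union_le _ _
      _ ≤ _ := by
        rw [Set.ncard_coe_finset]
        omega
  rcases Nat.eq_zero_or_pos m with h0 | h0
  · rw [h0, Nat.mul_zero]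
    exact Nat.zero_le _
  · have h7 : 2 * (k * m) + 2 * l ≤ 2 * X.ncard := by
      rcases h3 with h3 | h3
      · subst h3
        have : 2 * (k * m) ≤ m * (d + 2) := by
          calc 2 * (k * m) = m * (2 * k) := by ring
            _ ≤ _ := Nat.mul_le_mul_left _ h2
        omega
      · obtain ⟨a, rfl⟩ : ∃ a, m = a + 1 := ⟨m - 1, by omega⟩
        obtain ⟨b, hb⟩ := Nat.exists_eq_add_of_le h3
        have h8 := h5 (by omega)
        have h9 : (a + 1 + 1) * (d + 1) = 2 * (d + 1) + a * (2 * k + b) := by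
          rw [hb]
          ring
        have h10 : 2 * (k * (a + 1)) = 2 * k + a * (2 * k) := by ring
        have h11 : a * (2 * k) ≤ a * (2 * k + b) := Nat.mul_le_mul_left _ (by omega)
        rw [h9] at h8
        rw [h10]
        omega
    omega

open Classical in
/-- trees in a packing use `k * n` edges -/
theorem packs_card {V : Type} [Fintype V] {k : ℕ} {G : SimpleGraph V} (h : Packs k G) :
    k * (Fintype.card V - 1) ≤ G.edgeSet.ncard := by
  obtain ⟨T, h1, h2⟩ := h
  have h3 : (Finset.univ.biUnion (fun i => (T i).edgeFinset)).card =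
      ∑ i : Fin k, (T i).edgeFinset.card := by
    apply Finset.card_biUnion
    intro i _ j _ hij
    change Disjoint (T i).edgeFinset (T j).edgeFinset
    rw [Finset.disjoint_left]
    intro e he1 he2
    rw [SimpleGraph.mem_edgeFinset] at he1 he2
    induction e using Sym2.ind with
    | _ x y => exact h2 i j hij x y he1 he2
  have h4 : ∀ i, (T i).edgeFinset.card = Fintype.card V - 1 := by
    intro i
    have := (h1 i).2.card_edgeFinset
    omega
  rw [Finset.sum_congr rfl (fun i _ => h4 i), Finset.sum_const, Finset.card_univ,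
    Fintype.card_fin, smul_eq_mul] at h3
  rw [← h3, ← Set.ncard_coe_finset]
  refine Set.ncard_le_ncard ?_ (Set.toFinite _)
  intro e he
  rw [Finset.mem_coe, Finset.mem_biUnion] at he
  obtain ⟨i, -, he⟩ := he
  rw [SimpleGraph.mem_edgeFinset] at he
  exact SimpleGraph.edgeSet_mono (h1 i).1 he

/-- the degree of a vertex in a packing -/
theorem packs_deg {V : Type} [Finite V] {k : ℕ} {G : SimpleGraph V} (h : Packs k G)
    (x w : V) (hxw : x ≠ w) : k ≤ (G.neighborSet x).ncard := by
  obtain ⟨T, h1, h2⟩ := h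
  have h3 : ∀ i, ∃ y, (T i).Adj x y := by
    intro i
    obtain ⟨p⟩ := (h1 i).2.1.preconnected x w
    cases p with
    | nil => exact absurd rfl hxw
    | cons hadj _ => exact ⟨_, hadj⟩
  choose f hf using h3
  have hinj : Function.Injective f := by
    intro i j hij
    by_contra hne
    exact h2 i j hne x (f i) (hf i) (hij ▸ hf j)
  have h4 : (Set.range f).ncard = k := by
    rw [← Set.image_univ, Set.ncard_image_of_injective _ hinj, Set.ncard_univ,
      Nat.card_eq_fintype_card, Fintype.card_fin]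
  rw [← h4]
  refine Set.ncard_le_ncard ?_ (Set.toFinite _)
  rintro _ ⟨i, rfl⟩
  exact (h1 i).1 (hf i)

/-- necessity -/
theorem rob_cone_imp (hn : 1 ≤ n) (hK : RegularOfDegree K d) {k l : ℕ} (hk : 1 ≤ k)
    (h : Rob k l (Cone K)) : k + l ≤ d + 1 ∧ 2 * k ≤ d + 2 ∧ (l = 0 ∨ 2 * k ≤ d + 1) := by
  classical
  obtain ⟨x, hx⟩ : ∃ x : Fin n, x = ⟨0, hn⟩ := ⟨_, rfl⟩
  have hxl : x.castSucc ≠ Fin.last n := (Fin.castSucc_lt_last x).ne
  have hN := cone_deg K hK x
  refine ⟨?_, ?_, ?_⟩
  · obtain ⟨W, hW1, hW2⟩ := Set.exists_subset_card_eq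
      (s := (Cone K).neighborSet x.castSucc) (n := min l (d + 1)) (by rw [hN]; exact min_le_right _ _)
    obtain ⟨W', hW'⟩ := (Set.toFinite W).exists_finset_coe
    obtain ⟨F, hF⟩ : ∃ F : Finset (Sym2 (Fin (n + 1))), F = W'.image (fun w => s(x.castSucc, w)) :=
      ⟨_, rfl⟩
    have hFc : F.card ≤ l := by
      rw [hF]
      refine Finset.card_image_le.trans ?_
      rw [← Set.ncard_coe_finset, hW', hW2]
      exact min_le_left _ _
    have h1 := packs_deg (h F hFc) x.castSucc (Fin.last n) hxl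
    have h2 : ((Cone K).deleteEdges F).neighborSet x.castSucc ⊆
        (Cone K).neighborSet x.castSucc \ W := by
      intro y hy
      rw [SimpleGraph.mem_neighborSet, SimpleGraph.deleteEdges_adj] at hy
      refine ⟨hy.1, fun hyW => hy.2 ?_⟩
      rw [Finset.mem_coe, hF, Finset.mem_image]
      refine ⟨y, ?_, rfl⟩
      rw [← Finset.mem_coe, hW']
      exact hyW
    have h3 := Set.ncard_le_ncard h2 (Set.toFinite _)
    rw [Set.ncard_sdiff hW1 (Set.toFinite _), hN, hW2] at h3
    rcases le_total l (d + 1) with h4 | h4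
    · rw [min_eq_left h4] at h3
      omega
    · rw [min_eq_right h4] at h3
      omega
  · have h1 := packs_card (h ∅ (by simp))
    rw [Finset.coe_empty, SimpleGraph.deleteEdges_empty, Fintype.card_fin, Nat.add_sub_cancel] at h1
    have h2 := edges_cone hK
    have h3 : n * (2 * k) ≤ n * (d + 2) := by
      calc n * (2 * k) = 2 * (k * n) := by ring
        _ ≤ 2 * (Cone K).edgeSet.ncard := by omega
        _ = _ := h2
    exact Nat.le_of_mul_le_mul_left h3 (by omega)
  · rcases Nat.eq_zero_or_pos l with h0 | h0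
    · exact Or.inl h0
    · right
      obtain ⟨e, he⟩ : ∃ e : Sym2 (Fin (n + 1)), e = s(x.castSucc, Fin.last n) := ⟨_, rfl⟩
      have h1 := packs_card (h {e} (by rw [Finset.card_singleton]; exact h0))
      rw [Fintype.card_fin, Nat.add_sub_cancel, SimpleGraph.edgeSet_deleteEdges,
        Finset.coe_singleton] at h1
      have he' : e ∈ (Cone K).edgeSet := by
        rw [he]
        exact adj_last K x
      have h2 := edges_cone hK
      have h4 := Set.ncard_sdiff_singleton_add_one he' (Set.toFinite _)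
      have h3 : n * (2 * k) < n * (d + 2) := by
        calc n * (2 * k) = 2 * (k * n) := by ring
          _ < 2 * (Cone K).edgeSet.ncard := by omega
          _ = _ := h2
      have := Nat.lt_of_mul_lt_mul_left h3
      omega

theorem strg_cone (hn : 1 ≤ n) (hK : RegularOfDegree K d) (t : ℝ) :
    Strg t (Cone K) ↔ 2 * t ≤ d + 2 := by
  classical
  constructor
  · intro h
    have h1 := h id
    have h2 : {e | e ∈ (Cone K).edgeSet ∧ Cross id e} = (Cone K).edgeSet := by
      ext e
      induction e using Sym2.ind with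
      | _ x y =>
        rw [Set.mem_setOf_eq, cross_mk]
        exact ⟨fun h => h.1, fun h => ⟨h, (Cone K).ne_of_adj h⟩⟩
    rw [h2, Finset.image_id, Finset.card_univ, Fintype.card_fin] at h1
    have h3 := edges_cone hK
    have h4 : (2 : ℝ) * ((Cone K).edgeSet.ncard : ℝ) = n * (d + 2) := by exact_mod_cast h3
    have h5 : (n : ℝ) * (2 * t) ≤ n * (d + 2) := by
      rw [← h4]
      have : t * (((n + 1 : ℕ) : ℝ) - 1) = t * n := by push_cast; ring
      rw [this] at h1
      linarith
    have h6 : (0 : ℝ) < n := by exact_mod_cast hn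
    exact le_of_mul_le_mul_left h5 h6
  · intro h c
    obtain ⟨m, hm⟩ : ∃ m, m = (univ.image c).card - 1 := ⟨_, rfl⟩
    obtain ⟨h4, -⟩ := cross_ge hK c m hm
    have hpos : 1 ≤ (univ.image c).card :=
      Finset.card_pos.2 ⟨c (Fin.last n), Finset.mem_image_of_mem _ (Finset.mem_univ _)⟩
    have h5 : ((univ.image c).card : ℝ) - 1 = m := by
      have : (univ.image c).card = m + 1 := by omega
      rw [this]
      push_cast
      ring
    rw [h5]
    have h6 : (m : ℝ) * (d + 2) ≤ 2 * ({e | e ∈ (Cone K).edgeSet ∧ Cross c e}.ncard : ℝ) := by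
      exact_mod_cast h4
    have h7 : (m : ℝ) * (2 * t) ≤ m * (d + 2) := mul_le_mul_of_nonneg_left h (Nat.cast_nonneg m)
    linarith

end Cones

theorem strg_mono {V : Type} [Fintype V] [DecidableEq V] {t : ℝ} {G H : SimpleGraph V}
    (h : G ≤ H) (hG : Strg t G) : Strg t H := by
  intro c
  refine (hG c).trans ?_
  refine Nat.cast_le.2 (Set.ncard_le_ncard ?_ (Set.toFinite _))
  rintro e ⟨h1, h2⟩
  exact ⟨SimpleGraph.edgeSet_mono h h1, h2⟩

theorem strg_map {V : Type} [Fintype V] [DecidableEq V] {t : ℝ} {G : SimpleGraph V} (σ : V ≃ V)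
    (hG : Strg t G) : Strg t (G.map σ.toEmbedding) := by
  intro c
  have h1 := hG (fun v => c (σ v))
  have h2 : univ.image (fun v => c (σ v)) = univ.image c := by
    ext a
    rw [Finset.mem_image, Finset.mem_image]
    constructor
    · rintro ⟨v, -, rfl⟩
      exact ⟨σ v, Finset.mem_univ _, rfl⟩
    · rintro ⟨v, -, rfl⟩
      exact ⟨σ.symm v, Finset.mem_univ _, by rw [Equiv.apply_symm_apply]⟩
  rw [h2] at h1
  refine h1.trans (Nat.cast_le.2 ?_)
  rw [← Set.ncard_image_of_injective _ (Sym2.map.injective σ.injective)]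
  refine Set.ncard_le_ncard ?_ (Set.toFinite _)
  rintro _ ⟨e, ⟨he1, he2⟩, rfl⟩
  induction e using Sym2.ind with
  | _ x y =>
    rw [cross_mk] at he2
    rw [Sym2.map_mk]
    refine ⟨?_, (cross_mk _ _ _).2 he2⟩
    exact (SimpleGraph.map_adj _ _ _ _).2 ⟨x, y, he1, rfl, rfl⟩

theorem strg_isolated {V : Type} [Fintype V] [DecidableEq V] {t : ℝ} (ht : 0 < t)
    {G : SimpleGraph V} (v w : V) (hvw : v ≠ w) (hv : ∀ w, ¬ G.Adj v w) : ¬ Strg t G := by
  intro h
  have h1 := h (fun x => if x = v then v else w)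
  have h2 : {e | e ∈ G.edgeSet ∧ Cross (fun x => if x = v then v else w) e} = ∅ := by
    apply Set.eq_empty_iff_forall_notMem.2
    rintro e ⟨he1, he2⟩
    induction e using Sym2.ind with
    | _ x y =>
      rw [cross_mk] at he2
      by_cases hx : x = v
      · subst hx
        exact hv y he1
      · by_cases hy : y = v
        · subst hy
          exact hv x (G.adj_symm he1)
        · simp only [if_neg hx, if_neg hy] at he2
          exact he2 rfl
  rw [h2, Set.ncard_empty] at h1
  have h3 : 2 ≤ (univ.image (fun x => if x = v then v else w)).card := by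
    have h4 : ({v, w} : Finset V) ⊆ univ.image (fun x => if x = v then v else w) := by
      intro a ha
      rw [Finset.mem_insert, Finset.mem_singleton] at ha
      rw [Finset.mem_image]
      rcases ha with rfl | rfl
      · exact ⟨a, Finset.mem_univ _, if_pos rfl⟩
      · exact ⟨a, Finset.mem_univ _, if_neg (Ne.symm hvw)⟩
    have h5 := Finset.card_le_card h4
    rwa [Finset.card_pair hvw] at h5
  have h4 : (1 : ℝ) ≤ ((univ.image (fun x => if x = v then v else w)).card : ℝ) - 1 := by
    have : (2 : ℝ) ≤ ((univ.image (fun x => if x = v then v else w)).card : ℝ) := by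
      exact_mod_cast h3
    linarith
  have h5 : 0 < t * (((univ.image (fun x => if x = v then v else w)).card : ℝ) - 1) :=
    mul_pos ht (by linarith)
  rw [Nat.cast_zero] at h1
  linarith

end Pool.Agent.Q213.EV
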