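import Mathlib
import Pool.Agent.Q213.EV.Robust

set_option autoImplicit false

/-! Edge boundaries of sets of vertices in cones over regular graphs. -/

namespace Pool.Agent.Q213.EV

open Finset
open Pool.Agent.Results.MP_257582_lc.ConeDegrees

/-- the number of edges between `S` and its complement -/
noncomputable def bd {V : Type} (G : SimpleGraph V) (S : Finset V) : ℕ :=
  {e | e ∈ G.edgeSet ∧ (∃ x ∈ e, x ∈ S) ∧ ∃ x ∈ e, x ∉ S}.ncard

/-- the edge boundary of every set of at most half of the vertices is at least `f` of its size -/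
def Expd {V : Type} [Fintype V] (f : ℕ → ℝ) (G : SimpleGraph V) : Prop :=
  ∀ S : Finset V, S.Nonempty → 2 * S.card ≤ Fintype.card V → f S.card ≤ (bd G S : ℝ)

section General

variable {V : Type} [Fintype V] [DecidableEq V]

open Classical in
theorem bd_cut (G : SimpleGraph V) (S : Finset V) : bd G S = cut G S := by
  classical
  have h1 : cut G S = ((S.sigma fun u => univ.filter (fun v => G.Adj u v ∧ v ∉ S)) :
      Finset (Σ _ : V, V)).card := by
    rw [Finset.card_sigma]
    rfl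
  rw [h1]
  unfold bd
  have h2 : {e | e ∈ G.edgeSet ∧ (∃ x ∈ e, x ∈ S) ∧ ∃ x ∈ e, x ∉ S} =
      (fun p : (Σ _ : V, V) => s(p.1, p.2)) ''
        ((S.sigma fun u => univ.filter (fun v => G.Adj u v ∧ v ∉ S) : Finset (Σ _ : V, V)) :
          Set (Σ _ : V, V)) := by
    ext e
    rw [Set.mem_image]
    constructor
    · rintro ⟨h3, ⟨x, hx, hxS⟩, ⟨y, hy, hyS⟩⟩
      have hxy : x ≠ y := by
        rintro rfl
        exact hyS hxS
      have he : e = s(x, y) := ((Sym2.mem_and_mem_iff hxy).1 ⟨hx, hy⟩)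
      subst he
      refine ⟨⟨x, y⟩, ?_, rfl⟩
      rw [Finset.mem_coe, Finset.mem_sigma, Finset.mem_filter]
      exact ⟨hxS, Finset.mem_univ _, h3, hyS⟩
    · rintro ⟨⟨x, y⟩, h3, rfl⟩
      rw [Finset.mem_coe, Finset.mem_sigma, Finset.mem_filter] at h3
      obtain ⟨h4, -, h5, h6⟩ := h3
      exact ⟨h5, ⟨x, Sym2.mem_mk_left _ _, h4⟩, ⟨y, Sym2.mem_mk_right _ _, h6⟩⟩
  rw [h2, Set.ncard_image_of_injOn, Set.ncard_coe_finset]
  rintro ⟨x, y⟩ hp ⟨x', y'⟩ hp' h
  rw [Finset.mem_coe, Finset.mem_sigma, Finset.mem_filter] at hp hp'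
  simp only at h hp hp'
  rw [Sym2.eq_iff] at h
  rcases h with ⟨rfl, rfl⟩ | ⟨rfl, rfl⟩
  · rfl
  · exact absurd hp.1 hp'.2.2.2

theorem bd_mono {G H : SimpleGraph V} (h : G ≤ H) (S : Finset V) : bd G S ≤ bd H S := by
  refine Set.ncard_le_ncard ?_ (Set.toFinite _)
  rintro e ⟨h1, h2⟩
  exact ⟨SimpleGraph.edgeSet_mono h h1, h2⟩

theorem expd_mono {f : ℕ → ℝ} {G H : SimpleGraph V} (h : G ≤ H) (hG : Expd f G) : Expd f H :=
  fun S h1 h2 => (hG S h1 h2).trans (Nat.cast_le.2 (bd_mono h S))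

theorem expd_map {f : ℕ → ℝ} {G : SimpleGraph V} (σ : V ≃ V) (hG : Expd f G) :
    Expd f (G.map σ.toEmbedding) := by
  intro S h1 h2
  have h3 : (S.map σ.symm.toEmbedding).card = S.card := Finset.card_map _
  have h4 := hG (S.map σ.symm.toEmbedding) (h1.map) (by rw [h3]; exact h2)
  rw [h3] at h4
  refine h4.trans (Nat.cast_le.2 ?_)
  unfold bd
  rw [← Set.ncard_image_of_injective _ (Sym2.map.injective σ.injective)]
  refine Set.ncard_le_ncard ?_ (Set.toFinite _)
  rintro _ ⟨e, ⟨he1, ⟨x, hx, hxS⟩, ⟨y, hy, hyS⟩⟩, rfl⟩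
  have hm : ∀ z, z ∈ S.map σ.symm.toEmbedding ↔ σ z ∈ S := by
    intro z
    rw [Finset.mem_map]
    constructor
    · rintro ⟨a, ha, rfl⟩
      change σ (σ.symm a) ∈ S
      rwa [Equiv.apply_symm_apply]
    · intro h
      exact ⟨σ z, h, σ.symm_apply_apply z⟩
  refine ⟨?_, ⟨σ x, Sym2.mem_map.2 ⟨x, hx, rfl⟩, (hm x).1 hxS⟩,
    ⟨σ y, Sym2.mem_map.2 ⟨y, hy, rfl⟩, fun h => hyS ((hm y).2 h)⟩⟩
  induction e using Sym2.ind with
  | _ a b =>
    rw [Sym2.map_mk]
    exact (SimpleGraph.map_adj _ _ _ _).2 ⟨a, b, he1, rfl, rfl⟩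

theorem expd_isolated {f : ℕ → ℝ} (hf : 0 < f 1) (hV : 2 ≤ Fintype.card V)
    {G : SimpleGraph V} (v : V) (hv : ∀ w, ¬ G.Adj v w) : ¬ Expd f G := by
  intro h
  have h1 := h {v} (Finset.singleton_nonempty v) (by rw [Finset.card_singleton]; exact hV)
  have h2 : bd G {v} = 0 := by
    rw [bd_cut]
    classical
    unfold cut
    rw [Finset.sum_singleton, Finset.card_eq_zero, Finset.eq_empty_iff_forall_notMem]
    intro w hw
    rw [Finset.mem_filter] at hw
    exact hv w hw.2.1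
  rw [h2, Finset.card_singleton, Nat.cast_zero] at h1
  linarith

end General

section Cones

variable {n d : ℕ} {K : SimpleGraph (Fin n)}

open Classical in
theorem deg_last (K : SimpleGraph (Fin n)) :
    (univ.filter (fun v => (Cone K).Adj (Fin.last n) v)).card = n := by
  have : univ.filter (fun v => (Cone K).Adj (Fin.last n) v) =
      univ.image (Fin.castSucc (n := n)) := by
    ext v
    rw [Finset.mem_filter, Finset.mem_image]
    constructor
    · rintro ⟨-, h⟩
      obtain ⟨x, rfl⟩ | rfl := Fin.eq_castSucc_or_eq_last v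
      · exact ⟨x, Finset.mem_univ _, rfl⟩
      · exact absurd rfl ((Cone K).ne_of_adj h)
    · rintro ⟨x, -, rfl⟩
      exact ⟨Finset.mem_univ _, (adj_last K x).symm⟩
  rw [this, Finset.card_image_of_injective _ (Fin.castSucc_injective n), Finset.card_univ,
    Fintype.card_fin]

theorem deg_lt (hn : 1 ≤ n) (hK : RegularOfDegree K d) : d + 1 ≤ n := by
  have h := hK ⟨0, hn⟩
  have h2 : K.neighborSet ⟨0, hn⟩ ⊆ {(⟨0, hn⟩ : Fin n)}ᶜ := by
    intro x hx hx'
    rw [Set.mem_singleton_iff] at hx'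
    subst hx'
    exact K.loopless.irrefl _ hx
  have h3 := Set.ncard_le_ncard h2 (Set.toFinite _)
  rw [h, Set.ncard_compl, Set.ncard_singleton, Nat.card_eq_fintype_card, Fintype.card_fin] at h3
  omega

open Classical in
theorem cut_ge2 (hn : 1 ≤ n) (hK : RegularOfDegree K d) (B : Finset (Fin (n + 1))) :
    B.card * (d + 2 - B.card) ≤ cut (Cone K) B := by
  have hdeg : ∀ u : Fin (n + 1), d + 1 ≤ (univ.filter (fun v => (Cone K).Adj u v)).card := by
    intro u
    obtain ⟨x, rfl⟩ | rfl := Fin.eq_castSucc_or_eq_last u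
    · rw [deg_cone hK x]
    · rw [deg_last]
      exact deg_lt hn hK
  have h1 : ∀ u ∈ B, d + 2 - B.card ≤
      (univ.filter (fun v => (Cone K).Adj u v ∧ v ∉ B)).card := by
    intro u hu
    have h2 := hdeg u
    have h3 : univ.filter (fun v => (Cone K).Adj u v) ⊆
        univ.filter (fun v => (Cone K).Adj u v ∧ v ∉ B) ∪ B.erase u := by
      intro v hv
      rw [Finset.mem_filter] at hv
      rw [Finset.mem_union, Finset.mem_filter, Finset.mem_erase]
      by_cases hvB : v ∈ B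
      · exact Or.inr ⟨((Cone K).ne_of_adj hv.2).symm, hvB⟩
      · exact Or.inl ⟨Finset.mem_univ _, hv.2, hvB⟩
    have h4 := (Finset.card_le_card h3).trans (Finset.card_union_le _ _)
    rw [Finset.card_erase_of_mem hu] at h4
    have h5 := Finset.card_pos.2 ⟨u, hu⟩
    omega
  unfold cut
  calc B.card * (d + 2 - B.card) = ∑ u ∈ B, (d + 2 - B.card) := by
        rw [Finset.sum_const, smul_eq_mul]
    _ ≤ _ := Finset.sum_le_sum h1

theorem cut_ge3 (hK : RegularOfDegree K d) (B : Finset (Fin (n + 1)))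
    (hB : B.Nonempty) (h2 : 2 * B.card ≤ n + 1) : B.card ≤ cut (Cone K) B := by
  by_cases hz : Fin.last n ∈ B
  · have hc : Bᶜ.card = n + 1 - B.card := by
      rw [Finset.card_compl, Fintype.card_fin]
    have hpos := Finset.card_pos.2 hB
    have h1 := (cut_ge hK Bᶜ (Finset.card_pos.1 (by omega)) (by
      rw [Finset.mem_compl]
      exact fun h => h hz)).1
    rw [cut_compl] at h1
    omega
  · exact (cut_ge hK B hB hz).1

theorem expd_cone (hn : 1 ≤ n) (hK : RegularOfDegree K d) (f : ℕ → ℝ)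
    (hf : ∀ s : ℕ, 1 ≤ s → 2 * s ≤ n + 1 → f s ≤ max (s : ℝ) (s * (f 1 + 1 - s))) :
    Expd f (Cone K) ↔ f 1 ≤ d + 1 := by
  classical
  constructor
  · intro h
    obtain ⟨x, hx⟩ : ∃ x : Fin n, x = ⟨0, hn⟩ := ⟨_, rfl⟩
    have h1 := h {x.castSucc} (Finset.singleton_nonempty _) (by
      rw [Finset.card_singleton, Fintype.card_fin]
      omega)
    rw [Finset.card_singleton, bd_cut] at h1
    have h2 : cut (Cone K) {x.castSucc} ≤ d + 1 := by
      unfold cut
      rw [Finset.sum_singleton, ← deg_cone hK x]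
      refine Finset.card_le_card ?_
      intro v hv
      rw [Finset.mem_filter] at hv ⊢
      exact ⟨hv.1, hv.2.1⟩
    have h3 : ((cut (Cone K) {x.castSucc} : ℕ) : ℝ) ≤ d + 1 := by exact_mod_cast h2
    exact h1.trans h3
  · intro h S h1 h2
    rw [Fintype.card_fin] at h2
    have hpos := Finset.card_pos.2 h1
    rw [bd_cut]
    refine (hf S.card hpos h2).trans (max_le ?_ ?_)
    · exact_mod_cast cut_ge3 hK S h1 h2
    · have h3 := cut_ge2 hn hK S
      have h4 : (S.card : ℝ) * ((d + 2 - S.card : ℕ) : ℝ) ≤ (cut (Cone K) S : ℝ) := by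
        exact_mod_cast h3
      have h5 : (f 1 + 1 - S.card : ℝ) ≤ ((d + 2 - S.card : ℕ) : ℝ) := by
        rcases le_total S.card (d + 2) with h6 | h6
        · rw [Nat.cast_sub h6]
          push_cast
          linarith
        · have h7 : ((d : ℝ) + 2) ≤ S.card := by exact_mod_cast h6
          have h8 : (0 : ℝ) ≤ ((d + 2 - S.card : ℕ) : ℝ) := Nat.cast_nonneg _
          linarith
      exact (mul_le_mul_of_nonneg_left h5 (Nat.cast_nonneg _)).trans h4

end Cones

end Pool.Agent.Q213.EV
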